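import Pool.Agent.Helper42.QC.Defs

namespace Pool.Agent.Helper42.QC

open Pool.Agent.Helper42.QD

theorem cpl_tele {D k : Type} [DivisionRing D] [Field k] (c : VD D k) (a : ℕ → D)
    (h : ∀ n : ℕ, c.P n (a (n + 1) - a n)) (m j : ℕ) : c.P m (a (m + j) - a m) := by
  induction j with
  | zero => rw [add_zero, sub_self]; exact VD.P_zero c _
  | succ j ih =>
    have h1 : a (m + (j + 1)) - a m = (a (m + j + 1) - a (m + j)) + (a (m + j) - a m) := by
      rw [← add_assoc]; abel
    rw [h1]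
    exact VD.P_add (VD.P_mono (by push_cast; omega) (h (m + j))) ih

theorem st_CPL (hC : ST_CO1) (hF : ST_FIL) : ST_CPL := by
  intro K D k _ _ _ c c' hP a ha
  have hP' : ∀ (m : ℕ) y, c'.P ((c.d : ℤ) * m) y ↔ ∀ i, c.co y i / c.pi ^ m ∈ c.A := by
    intro m y
    rw [hP]
    have := hF K D c (m : ℤ) y
    rwa [zpow_natCast] at this
  obtain ⟨hadd, hsub, -⟩ := hC K D c
  have h1 : ∀ i n, (c.co (a (c.d * (n + 1))) i - c.co (a (c.d * n)) i) / c.pi ^ n ∈ c.A := by
    intro i n
    rw [← hsub]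
    refine (hP' n _).1 ?_ i
    have h2 := cpl_tele c' a ha (c.d * n) c.d
    have h3 : c.d * (n + 1) = c.d * n + c.d := by ring
    rw [h3]
    exact_mod_cast h2
  choose X hX using fun i => c.compl (fun n => c.co (a (c.d * n)) i) (h1 i)
  let x : D := ∑ i ∈ Finset.range c.d, c.emb (X i) * c.T ^ i
  have hx : ∀ i, c.co x i = if i < c.d then X i else 0 := by
    intro i
    have h2 := c.co_uniq x (fun i => if i < c.d then X i else 0)
      (fun i hi => if_neg (by omega)) (by
        refine Finset.sum_congr rfl fun i hi => ?_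
        rw [if_pos (Finset.mem_range.1 hi)])
    rw [← h2]
  have h4 : ∀ n : ℕ, c'.P ((c.d : ℤ) * n) (x - a (c.d * n)) := by
    intro n
    rw [hP']
    intro i
    rw [hsub, hx]
    split_ifs with h
    · exact hX i n
    · rw [c.co_zero _ _ (by omega), sub_zero, zero_div]
      exact c.A.zero_mem
  refine ⟨x, fun n => ?_⟩
  have hd := c.d2
  obtain ⟨j, hj⟩ : ∃ j, c.d * n = n + j := ⟨c.d * n - n, by
    have : n ≤ c.d * n := Nat.le_mul_of_pos_left n (by omega)
    omega⟩
  have h5 := h4 n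
  rw [hj] at h5
  have h6 := cpl_tele c' a ha n j
  have h7 : x - a n = (x - a (n + j)) + (a (n + j) - a n) := by abel
  rw [h7]
  refine VD.P_add (VD.P_mono ?_ h5) h6
  have : ((c.d * n : ℕ) : ℤ) = ((n + j : ℕ) : ℤ) := by rw [hj]
  push_cast at this
  omega

end Pool.Agent.Helper42.QC
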